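import Pool.Agent.Run7.h58.AR.Iface

/-! # Piece HUN: local bound of the Herglotz measure -/

set_option autoImplicit false

open MeasureTheory Filter Topology Set Complex

namespace Pool.Agent.Run7.h221.AR

open Pool.Agent.Run7.h58.AR

lemma ne0 {z : ℂ} (hz : ‖z‖ < 1) (t : ℝ) : exp (t * I) - z ≠ 0 := by
  intro h
  have h1 : exp (t * I) = z := sub_eq_zero.mp h
  rw [← h1, Complex.norm_exp_ofReal_mul_I] at hz
  exact lt_irrefl _ hz

lemma ker_re (z : ℂ) (t : ℝ) : (ker z t).re = (1 - ‖z‖ ^ 2) / ‖exp (t * I) - z‖ ^ 2 := by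
  have h1 : ‖exp (t * I)‖ ^ 2 = 1 := by
    rw [Complex.norm_exp_ofReal_mul_I, one_pow]
  unfold Pool.Agent.Run7.h58.AR.ker
  rw [Complex.div_re, ← add_div, ← Complex.normSq_eq_norm_sq, ← Complex.normSq_eq_norm_sq]
  rw [← Complex.normSq_eq_norm_sq] at h1
  rw [← h1]
  congr 1
  simp only [Complex.normSq_apply, Complex.add_re, Complex.sub_re, Complex.add_im, Complex.sub_im]
  ring

lemma norm_pt {r : ℝ} (hr : 0 ≤ r) (θ : ℝ) : ‖(r : ℂ) * exp (θ * I)‖ = r := by
  rw [norm_mul, Complex.norm_exp_ofReal_mul_I, mul_one, Complex.norm_real, Real.norm_eq_abs, abs_of_nonneg hr]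

/-- the Poisson kernel -/
noncomputable def K (r θ t : ℝ) : ℝ := (ker (r * exp (θ * I)) t).re

lemma K_eq {r : ℝ} (hr : 0 ≤ r) (θ t : ℝ) : K r θ t = (1 - r ^ 2) / ‖exp (t * I) - r * exp (θ * I)‖ ^ 2 := by
  unfold K
  rw [ker_re, norm_pt hr]

lemma K_nn {r : ℝ} (hr : 0 ≤ r) (hr1 : r < 1) (θ t : ℝ) : 0 ≤ K r θ t := by
  rw [K_eq hr]
  have : r ^ 2 ≤ 1 := by nlinarith
  positivity

lemma ker_cont {r : ℝ} (hr : 0 ≤ r) (hr1 : r < 1) :
    Continuous (fun p : ℝ × ℝ => ker (r * exp (p.1 * I)) p.2) := by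
  unfold Pool.Agent.Run7.h58.AR.ker
  refine Continuous.div (by fun_prop) (by fun_prop) fun p => ?_
  exact ne0 (by rw [norm_pt hr]; exact hr1) p.2

lemma K_cont {r : ℝ} (hr : 0 ≤ r) (hr1 : r < 1) : Continuous (fun p : ℝ × ℝ => K r p.1 p.2) :=
  Complex.continuous_re.comp (ker_cont hr hr1)

lemma ker_bd {z : ℂ} (hz : ‖z‖ < 1) (t : ℝ) : ‖ker z t‖ ≤ 2 / (1 - ‖z‖) := by
  have h0 : ‖exp (t * I)‖ = 1 := Complex.norm_exp_ofReal_mul_I t
  unfold Pool.Agent.Run7.h58.AR.ker
  rw [norm_div]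
  have h1 : ‖exp (t * I) + z‖ ≤ 2 := by
    have := norm_add_le (exp (t * I)) z
    linarith
  have h2 : 1 - ‖z‖ ≤ ‖exp (t * I) - z‖ := by
    have := norm_sub_norm_le (exp (t * I)) z
    linarith
  exact div_le_div₀ (by norm_num) h1 (by linarith) h2

lemma ker_int {z : ℂ} (hz : ‖z‖ < 1) (σ : Measure ℝ) [IsFiniteMeasure σ] :
    Integrable (fun t => ker z t) σ := by
  have hc : Continuous (fun t : ℝ => ker z t) := by
    unfold Pool.Agent.Run7.h58.AR.ker
    exact Continuous.div (by fun_prop) (by fun_prop) fun t => ne0 hz t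
  exact Integrable.of_bound hc.aestronglyMeasurable (2 / (1 - ‖z‖)) (Eventually.of_forall fun t => ker_bd hz t)

lemma re_F {F : ℂ → ℂ} {σ : Measure ℝ} (h : HerglotzMeasure F σ) {r : ℝ} (hr : 0 ≤ r) (hr1 : r < 1) (θ : ℝ) :
    ∫⁻ t, ENNReal.ofReal (K r θ t) ∂σ = ENNReal.ofReal (F (r * exp (θ * I))).re := by
  haveI := h.1
  have hz : ‖(r : ℂ) * exp (θ * I)‖ < 1 := by rw [norm_pt hr]; exact hr1
  have hint := ker_int hz σ
  have h1 : (F (r * exp (θ * I))).re = ∫ t, K r θ t ∂σ := by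
    rw [h.2.2 _ (by unfold D; rw [Metric.mem_ball, dist_zero_right]; exact hz)]
    have := Complex.reCLM.integral_comp_comm hint
    simp only [Complex.reCLM_apply] at this
    rw [← this]
    rfl
  rw [h1]
  exact (ofReal_integral_eq_lintegral_ofReal (f := fun t => K r θ t) (show Integrable (fun t => K r θ t) σ from hint.re)
    (Eventually.of_forall fun t => K_nn hr hr1 θ t)).symm

/-- the mean value of the Poisson kernel -/
lemma full {r : ℝ} (hr : 0 ≤ r) (hr1 : r < 1) (t : ℝ) :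
    ∫⁻ θ in Ioc (-Real.pi) Real.pi, ENNReal.ofReal (K r θ t) = ENNReal.ofReal (2 * Real.pi) := by
  have hpi := Real.pi_pos
  have hc : Continuous (fun θ : ℝ => ker (r * exp (θ * I)) t) :=
    (ker_cont hr hr1).comp (continuous_id.prodMk continuous_const)
  have hper : Function.Periodic (fun θ : ℝ => ker (r * exp (θ * I)) t) (2 * Real.pi) := by
    intro θ
    have : exp (((θ + 2 * Real.pi : ℝ) : ℂ) * I) = exp (θ * I) := by
      push_cast
      rw [add_mul, Complex.exp_add, Complex.exp_two_pi_mul_I, mul_one]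
    simp only [this]
  have hav : Real.circleAverage (fun z : ℂ => ker z t) 0 r = ker 0 t := by
    apply DiffContOnCl.circleAverage
    apply DifferentiableOn.diffContOnCl
    intro z hz
    have hz' : ‖z‖ < 1 := by
      have h1 := Metric.closure_ball_subset_closedBall hz
      rw [mem_closedBall_zero_iff, abs_of_nonneg hr] at h1
      linarith
    unfold Pool.Agent.Run7.h58.AR.ker
    exact (DifferentiableAt.div (by fun_prop) (by fun_prop) (ne0 hz' t)).differentiableWithinAt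
  have hk0 : ker 0 t = 1 := by
    unfold Pool.Agent.Run7.h58.AR.ker
    rw [add_zero, sub_zero, div_self (Complex.exp_ne_zero _)]
  have h2 : ∫ θ in (0 : ℝ)..(2 * Real.pi), ker (r * exp (θ * I)) t = 2 * Real.pi := by
    unfold Real.circleAverage at hav
    rw [hk0] at hav
    have e : ∀ θ : ℝ, circleMap 0 r θ = r * exp (θ * I) := by
      intro θ; simp [circleMap]
    simp only [e] at hav
    have hne : (2 * Real.pi : ℝ) ≠ 0 := by positivity
    rw [inv_smul_eq_iff₀ hne] at hav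
    rw [hav]
    simp
  have h3 : ∫ θ in (-Real.pi)..Real.pi, ker (r * exp (θ * I)) t = 2 * Real.pi := by
    have h4 := hper.intervalIntegral_add_eq (-Real.pi) 0
    rw [zero_add, h2] at h4
    have e : -Real.pi + 2 * Real.pi = Real.pi := by ring
    rw [e] at h4
    exact h4
  have h5 : ∫ θ in (-Real.pi)..Real.pi, K r θ t = 2 * Real.pi := by
    have h6 : IntervalIntegrable (fun θ : ℝ => ker (r * exp (θ * I)) t) volume (-Real.pi) Real.pi :=
      hc.intervalIntegrable _ _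
    have h7 := Complex.reCLM.intervalIntegral_comp_comm h6
    simp only [Complex.reCLM_apply] at h7
    rw [h3] at h7
    have h8 : (2 * (Real.pi : ℂ)).re = 2 * Real.pi := by simp
    rw [h8] at h7
    exact h7
  have hKc : Continuous (fun θ : ℝ => K r θ t) := Complex.continuous_re.comp hc
  rw [intervalIntegral.integral_of_le (by linarith)] at h5
  rw [← ofReal_integral_eq_lintegral_ofReal, h5]
  · exact (hKc.integrableOn_Icc (a := -Real.pi) (b := Real.pi)).mono_set Ioc_subset_Icc_self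
  · exact Eventually.of_forall fun θ => K_nn hr hr1 θ t

/-- the distance from the rest of the circle -/
lemma exists_c {a b t : ℝ} (ha : -Real.pi ≤ a) (hb : b ≤ Real.pi) (ht : t ∈ Ioo a b) :
    ∃ c : ℝ, 0 < c ∧ ∀ θ ∈ Icc (-Real.pi) Real.pi \ Ioo a b, c ≤ ‖exp (t * I) - exp (θ * I)‖ := by
  have hpi := Real.pi_pos
  have hK : IsCompact (Icc (-Real.pi) Real.pi \ Ioo a b) := isCompact_Icc.diff isOpen_Ioo
  have hne : (Icc (-Real.pi) Real.pi \ Ioo a b).Nonempty :=
    ⟨-Real.pi, ⟨⟨le_refl _, by linarith⟩, fun h => by have := h.1; linarith⟩⟩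
  have hcont : ContinuousOn (fun θ : ℝ => ‖exp (t * I) - exp (θ * I)‖) (Icc (-Real.pi) Real.pi \ Ioo a b) := by
    fun_prop
  obtain ⟨θ₀, hθ₀, hmin⟩ := hK.exists_isMinOn hne hcont
  refine ⟨‖exp (t * I) - exp (θ₀ * I)‖, ?_, fun θ hθ => hmin hθ⟩
  rw [norm_pos_iff]
  intro h
  have h1 : exp (t * I) = exp (θ₀ * I) := sub_eq_zero.mp h
  rw [Complex.exp_eq_exp_iff_exists_int] at h1
  obtain ⟨n, hn⟩ := h1
  have h2 : (t : ℂ) = θ₀ + n * (2 * Real.pi) := by
    have hI : (I : ℂ) ≠ 0 := Complex.I_ne_zero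
    apply mul_right_cancel₀ hI
    rw [hn]
    ring
  have h3 : t = θ₀ + n * (2 * Real.pi) := by exact_mod_cast h2
  have h4 := hθ₀.1.1
  have h5 := hθ₀.1.2
  have ht1 := ht.1
  have ht2 := ht.2
  have h6 : n = 0 := by
    rcases lt_trichotomy n 0 with h7 | h7 | h7
    · have : (n : ℝ) ≤ -1 := by exact_mod_cast (by omega : n ≤ -1)
      nlinarith
    · exact h7
    · have : (1 : ℝ) ≤ n := by exact_mod_cast (by omega : 1 ≤ n)
      nlinarith
  rw [h6] at h3
  simp only [Int.cast_zero, zero_mul, add_zero] at h3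
  exact hθ₀.2 (by rw [← h3]; exact ht)

/-- radii -/
noncomputable def rr (n : ℕ) : ℝ := 1 - 1 / ((n : ℝ) + 2)

lemma rr_pos (n : ℕ) : 0 < rr n := by
  unfold rr
  have h1 : (0 : ℝ) < (n : ℝ) + 2 := by positivity
  have : 1 / ((n : ℝ) + 2) < 1 := by
    rw [div_lt_one h1]
    have : (0 : ℝ) ≤ n := Nat.cast_nonneg n
    linarith
  linarith

lemma rr_lt (n : ℕ) : rr n < 1 := by
  unfold rr
  have : 0 < 1 / ((n : ℝ) + 2) := by positivity
  linarith

lemma rr_tend : Tendsto rr atTop (𝓝 1) := by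
  have h1 : Tendsto (fun n : ℕ => 1 / ((n : ℝ) + 2)) atTop (𝓝 0) := by
    have h2 : Tendsto (fun n : ℕ => (n : ℝ) + 2) atTop atTop :=
      tendsto_atTop_add_const_right _ _ tendsto_natCast_atTop_atTop
    have h4 := tendsto_inv_atTop_zero.comp h2
    simp only [one_div]
    exact h4
  have h3 := (tendsto_const_nhds (x := (1 : ℝ))).sub h1
  rw [sub_zero] at h3
  exact h3

lemma lower {a b t : ℝ} (ha : -Real.pi ≤ a) (hb : b ≤ Real.pi) (ht : t ∈ Ioo a b) :
    ENNReal.ofReal (2 * Real.pi) ≤ liminf (fun n => ∫⁻ θ in Ioo a b, ENNReal.ofReal (K (rr n) θ t)) atTop := by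
  have hpi := Real.pi_pos
  obtain ⟨c, hc, hcb⟩ := exists_c ha hb ht
  have hev : ∀ᶠ n in atTop, 1 - rr n < c / 2 := by
    have h1 : Tendsto (fun n => 1 - rr n) atTop (𝓝 (1 - 1)) := tendsto_const_nhds.sub rr_tend
    rw [sub_self] at h1
    exact h1.eventually_lt_const (half_pos hc)
  have hlim : Tendsto (fun n => ENNReal.ofReal (2 * Real.pi - (1 - rr n ^ 2) / (c / 2) ^ 2 * (2 * Real.pi))) atTop
      (𝓝 (ENNReal.ofReal (2 * Real.pi))) := by
    refine ENNReal.tendsto_ofReal ?_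
    have h1 : Tendsto (fun n => 2 * Real.pi - (1 - rr n ^ 2) / (c / 2) ^ 2 * (2 * Real.pi)) atTop
        (𝓝 (2 * Real.pi - (1 - 1 ^ 2) / (c / 2) ^ 2 * (2 * Real.pi))) := by
      refine tendsto_const_nhds.sub ?_
      exact ((tendsto_const_nhds.sub (rr_tend.pow 2)).div_const _).mul_const _
    simpa using h1
  rw [← hlim.liminf_eq]
  refine liminf_le_liminf ?_
  filter_upwards [hev] with n hn
  have hr := (rr_pos n).le
  have hr1 := rr_lt n
  have hM : 0 ≤ (1 - rr n ^ 2) / (c / 2) ^ 2 := by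
    have : rr n ^ 2 ≤ 1 := by nlinarith
    positivity
  have h1 := full hr hr1 t
  rw [← lintegral_inter_add_diff _ _ (measurableSet_Ioo (a := a) (b := b))] at h1
  have h2 : ∫⁻ θ in Ioc (-Real.pi) Real.pi ∩ Ioo a b, ENNReal.ofReal (K (rr n) θ t) ≤
      ∫⁻ θ in Ioo a b, ENNReal.ofReal (K (rr n) θ t) := lintegral_mono_set inter_subset_right
  have h3 : ∫⁻ θ in Ioc (-Real.pi) Real.pi \ Ioo a b, ENNReal.ofReal (K (rr n) θ t) ≤
      ENNReal.ofReal ((1 - rr n ^ 2) / (c / 2) ^ 2 * (2 * Real.pi)) := by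
    have h4 : ∫⁻ θ in Ioc (-Real.pi) Real.pi \ Ioo a b, ENNReal.ofReal (K (rr n) θ t) ≤
        ∫⁻ _θ in Ioc (-Real.pi) Real.pi \ Ioo a b, ENNReal.ofReal ((1 - rr n ^ 2) / (c / 2) ^ 2) := by
      refine setLIntegral_mono' (measurableSet_Ioc.diff measurableSet_Ioo) fun θ hθ => ?_
      refine ENNReal.ofReal_le_ofReal ?_
      rw [K_eq hr]
      have h5 := hcb θ ⟨Ioc_subset_Icc_self hθ.1, hθ.2⟩
      have h6 : ‖exp (t * I) - exp (θ * I)‖ ≤ ‖exp (t * I) - rr n * exp (θ * I)‖ + (1 - rr n) := by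
        have e : exp (t * I) - exp (θ * I) = (exp (t * I) - rr n * exp (θ * I)) +
            ((rr n - 1 : ℝ) : ℂ) * exp (θ * I) := by
          push_cast
          ring
        rw [e]
        refine (norm_add_le _ _).trans ?_
        rw [norm_mul, Complex.norm_exp_ofReal_mul_I, mul_one, Complex.norm_real, Real.norm_eq_abs,
          abs_of_neg (by linarith)]
        linarith
      have h7 : c / 2 ≤ ‖exp (t * I) - rr n * exp (θ * I)‖ := by linarith
      have h8 : (c / 2) ^ 2 ≤ ‖exp (t * I) - rr n * exp (θ * I)‖ ^ 2 :=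
        pow_le_pow_left₀ (by positivity) h7 2
      have h9 : 0 ≤ 1 - rr n ^ 2 := by nlinarith
      exact div_le_div_of_nonneg_left h9 (by positivity) h8
    refine h4.trans ?_
    rw [setLIntegral_const, ENNReal.ofReal_mul hM]
    refine mul_le_mul_of_nonneg_left ?_ (by positivity)
    refine (measure_mono diff_subset).trans ?_
    rw [Real.volume_Ioc]
    exact ENNReal.ofReal_le_ofReal (by linarith)
  rw [ENNReal.ofReal_sub _ (by positivity), tsub_le_iff_right, ← h1]
  exact add_le_add h2 h3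

theorem t_HUN : S_HUN := by
  intro F σ a b C _ hF ha hab hb hC
  haveI := hF.1
  have hpi := Real.pi_pos
  have hC0 : 0 ≤ C := by
    have h1 := hC ((a + b) / 2) ⟨by linarith, by linarith⟩ (1 / 2) (by norm_num) (by norm_num)
    have h2 : 0 ≤ (F (((1 / 2 : ℝ) : ℂ) * exp ((((a + b) / 2 : ℝ) : ℂ) * I))).re := by
      rw [hF.2.2 _ (by unfold D; rw [Metric.mem_ball, dist_zero_right, norm_pt (by norm_num)]; norm_num)]
      have hz : ‖((1 / 2 : ℝ) : ℂ) * exp ((((a + b) / 2 : ℝ) : ℂ) * I)‖ < 1 := by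
        rw [norm_pt (by norm_num)]; norm_num
      have h3 := Complex.reCLM.integral_comp_comm (ker_int hz σ)
      simp only [Complex.reCLM_apply] at h3
      rw [← h3]
      exact integral_nonneg fun t => K_nn (by norm_num) (by norm_num) _ t
    exact h2.trans h1
  have hup : ∀ n, ∫⁻ t, (∫⁻ θ in Ioo a b, ENNReal.ofReal (K (rr n) θ t)) ∂σ ≤
      ENNReal.ofReal (C * (b - a)) := by
    intro n
    have hr := (rr_pos n).le
    have hr1 := rr_lt n
    have hm : Measurable (fun p : ℝ × ℝ => ENNReal.ofReal (K (rr n) p.2 p.1)) :=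
      ((K_cont hr hr1).comp continuous_swap).measurable.ennreal_ofReal
    rw [lintegral_lintegral_swap (f := fun t θ => ENNReal.ofReal (K (rr n) θ t)) hm.aemeasurable]
    have h1 : ∫⁻ θ in Ioo a b, ∫⁻ t, ENNReal.ofReal (K (rr n) θ t) ∂σ ≤ ∫⁻ _θ in Ioo a b, ENNReal.ofReal C := by
      refine setLIntegral_mono' measurableSet_Ioo fun θ hθ => ?_
      rw [re_F hF hr hr1 θ]
      exact ENNReal.ofReal_le_ofReal (hC θ hθ _ (rr_pos n) hr1)
    refine h1.trans ?_
    rw [setLIntegral_const, Real.volume_Ioo, ENNReal.ofReal_mul hC0]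
  have hlow : ENNReal.ofReal (2 * Real.pi) * σ (Ioo a b) ≤ ENNReal.ofReal (C * (b - a)) := by
    calc ENNReal.ofReal (2 * Real.pi) * σ (Ioo a b)
        = ∫⁻ _t in Ioo a b, ENNReal.ofReal (2 * Real.pi) ∂σ := by rw [setLIntegral_const]
      _ ≤ ∫⁻ t in Ioo a b, liminf (fun n => ∫⁻ θ in Ioo a b, ENNReal.ofReal (K (rr n) θ t)) atTop ∂σ :=
          setLIntegral_mono' measurableSet_Ioo fun t ht => lower ha hb ht
      _ ≤ ∫⁻ t, liminf (fun n => ∫⁻ θ in Ioo a b, ENNReal.ofReal (K (rr n) θ t)) atTop ∂σ :=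
          setLIntegral_le_lintegral _ _
      _ ≤ liminf (fun n => ∫⁻ t, (∫⁻ θ in Ioo a b, ENNReal.ofReal (K (rr n) θ t)) ∂σ) atTop := by
          refine lintegral_liminf_le fun n => ?_
          have hr := (rr_pos n).le
          have hr1 := rr_lt n
          have hm : Measurable (fun p : ℝ × ℝ => ENNReal.ofReal (K (rr n) p.2 p.1)) :=
            ((K_cont hr hr1).comp continuous_swap).measurable.ennreal_ofReal
          exact hm.lintegral_prod_right'
      _ ≤ liminf (fun _ : ℕ => ENNReal.ofReal (C * (b - a))) atTop :=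
          liminf_le_liminf (Eventually.of_forall hup)
      _ = ENNReal.ofReal (C * (b - a)) := liminf_const _
  rw [ENNReal.ofReal_div_of_pos (by positivity),
    ENNReal.le_div_iff_mul_le (Or.inl (by simp [hpi])) (Or.inl ENNReal.ofReal_ne_top), mul_comm]
  exact hlow

end Pool.Agent.Run7.h221.AR
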